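import Mathlib

set_option autoImplicit false

/-!
# The quartic character of two modulo `p = x^2 + y^2` (Gauss, Dirichlet)
-/

namespace Pool.Agent.U951.FD.Quart

open NumberTheorySymbols

theorem gcd_na (a b : ℤ) : Int.gcd a (b.natAbs : ℤ) = Int.gcd a b := by
  rw [Int.gcd_def, Int.gcd_def, Int.natAbs_natCast]

variable {p n : ℕ} [hp : Fact p.Prime]

theorem J_symm (h4 : p % 4 = 1) {z : ℤ} (hz : z % 2 = 1) : J(z | p) = J((p : ℤ) | z.natAbs) := by
  have hodd : Odd z.natAbs := by rw [Nat.odd_iff]; omega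
  have hpo : Odd p := by rw [Nat.odd_iff]; omega
  have h1 : J((z.natAbs : ℤ) | p) = J((p : ℤ) | z.natAbs) :=
    jacobiSym.quadratic_reciprocity_one_mod_four' hodd h4
  rcases le_total 0 z with h | h
  · rw [← h1, Int.natAbs_of_nonneg h]
  · have e : z = -(z.natAbs : ℤ) := by omega
    conv_lhs => rw [e]
    rw [jacobiSym.neg _ hpo, ZMod.χ₄_nat_one_mod_four h4, one_mul, h1]

theorem gcd_xy {x y : ℤ} (h : (p : ℤ) = x ^ 2 + y ^ 2) : IsCoprime x y := by
  rw [Int.isCoprime_iff_gcd_eq_one]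
  by_contra hne
  obtain ⟨q, hq, hd⟩ := Nat.exists_prime_and_dvd hne
  have h1 : (q : ℤ) ∣ x := (Int.natCast_dvd_natCast.2 hd).trans (Int.gcd_dvd_left ..)
  have h2 : (q : ℤ) ∣ y := (Int.natCast_dvd_natCast.2 hd).trans (Int.gcd_dvd_right ..)
  have h3 : ((q ^ 2 : ℕ) : ℤ) ∣ (p : ℤ) := by
    rw [h]
    push_cast
    exact dvd_add (pow_dvd_pow_of_dvd h1 2) (pow_dvd_pow_of_dvd h2 2)
  have h4 : q ^ 2 ∣ p := Int.natCast_dvd_natCast.1 h3
  have h5 : q ∣ p := (dvd_pow_self q (by norm_num)).trans h4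
  have h6 := (Nat.prime_dvd_prime_iff_eq hq hp.out).1 h5
  rw [h6] at h4
  have h7 := Nat.le_of_dvd hp.out.pos h4
  have h8 := hp.out.two_le
  nlinarith

theorem J_x (h4 : p % 4 = 1) {x y : ℤ} (h : (p : ℤ) = x ^ 2 + y ^ 2) (hx : x % 2 = 1) :
    J(x | p) = 1 := by
  rw [J_symm h4 hx]
  have h1 : J((p : ℤ) | x.natAbs) = J(y ^ 2 | x.natAbs) := by
    apply jacobiSym.mod_left'
    apply Int.emod_emod_of_dvd _ (dvd_refl _) |>.symm.trans
    have : (x.natAbs : ℤ) ∣ (p : ℤ) - y ^ 2 := by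
      rw [h, add_sub_cancel_right, Int.natAbs_dvd]
      exact dvd_pow_self x (by norm_num)
    rw [Int.emod_emod_of_dvd _ (dvd_refl _)]
    exact Int.emod_emod_of_dvd _ (dvd_refl _) |>.symm.trans (by
      rw [Int.emod_emod_of_dvd _ (dvd_refl _)]
      exact (Int.emod_eq_emod_iff_emod_sub_eq_zero).2 (Int.emod_eq_zero_of_dvd this))
  rw [h1]
  apply jacobiSym.sq_one'
  have := (gcd_xy h).symm
  rw [Int.isCoprime_iff_gcd_eq_one] at this
  rw [gcd_na]
  exact this

theorem J_s (h4 : p % 4 = 1) {x y : ℤ} (h : (p : ℤ) = x ^ 2 + y ^ 2) (hs : (x + y) % 2 = 1) :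
    J(x + y | p) = J(2 | (x + y).natAbs) := by
  rw [J_symm h4 hs]
  have hc : Int.gcd (x - y) (x + y).natAbs = 1 := by
    rw [gcd_na, ← Int.isCoprime_iff_gcd_eq_one]
    obtain ⟨u, v, huv⟩ := gcd_xy h
    obtain ⟨k, hk⟩ : ∃ k, x + y = 2 * k + 1 := ⟨(x + y) / 2, by omega⟩
    -- `x - y` and `x + y` generate `2`
    have h2 : IsCoprime (x + y) 2 := ⟨1, -k, by rw [hk]; ring⟩
    have h3 : IsCoprime (x + y) ((x - y)) := by
      obtain ⟨a, b, hab⟩ := h2
      refine ⟨a + b * (u + v), b * (u - v), ?_⟩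
      linear_combination hab + 2 * b * huv
    exact h3.symm
  have h1 : J(2 * (p : ℤ) | (x + y).natAbs) = 1 := by
    have : J(2 * (p : ℤ) | (x + y).natAbs) = J((x - y) ^ 2 | (x + y).natAbs) := by
      apply jacobiSym.mod_left'
      apply (Int.emod_eq_emod_iff_emod_sub_eq_zero).2
      apply Int.emod_eq_zero_of_dvd
      rw [Int.natAbs_dvd, h]
      exact ⟨x + y, by ring⟩
    rw [this]
    exact jacobiSym.sq_one' hc
  rw [jacobiSym.mul_left] at h1
  rcases jacobiSym.trichotomy 2 (x + y).natAbs with h5 | h5 | h5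
  · rw [h5, zero_mul] at h1; exact absurd h1 (by norm_num)
  · rw [h5, one_mul] at h1; rw [h5, h1]
  · rw [h5] at h1 ⊢
    linarith

/-- the quartic character of two -/
theorem quart (hpn : p = 4 * n + 1) {x y : ℤ} (h : (p : ℤ) = x ^ 2 + y ^ 2) (hx : x % 4 = 1) (t : ℤ) :
    (y = 4 * t → (2 : ZMod p) ^ n = if t % 2 = 0 then 1 else -1) ∧
    (y = 4 * t + 2 → (2 : ZMod p) ^ n * y = if t % 2 = 0 then -(x : ZMod p) else x) := by
  have h4 : p % 4 = 1 := by omega
  have e2 : p / 2 = 2 * n := by omega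
  have hxp : (x : ZMod p) ^ (2 * n) = 1 := by
    have h1 := J_x h4 h (by omega)
    rw [← jacobiSym.legendreSym.to_jacobiSym] at h1
    have h2 := legendreSym.eq_pow p x
    rw [h1, e2] at h2
    rw [← h2]; norm_num
  have hx0 : (x : ZMod p) ≠ 0 := by
    intro h0
    rw [h0] at hxp
    have hn : 2 * n ≠ 0 := by
      rintro h9
      have : p = 1 := by omega
      exact hp.out.one_lt.ne' this
    rw [zero_pow hn] at hxp
    exact zero_ne_one hxp
  have hp0 : ((x ^ 2 + y ^ 2 : ℤ) : ZMod p) = 0 := by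
    rw [← h]; simp
  push_cast at hp0
  have key : ∀ e : ℤ, (x + y) % 2 = 1 → J(2 | (x + y).natAbs) = e →
      (2 : ZMod p) ^ n * (y : ZMod p) ^ n = e * (x : ZMod p) ^ n := by
    intro e hs he
    have h1 := J_s h4 h hs
    rw [he, ← jacobiSym.legendreSym.to_jacobiSym] at h1
    have h2 := legendreSym.eq_pow p (x + y)
    rw [h1, e2] at h2
    push_cast at h2
    have h3 : ((x : ZMod p) + y) ^ (2 * n) = (2 * (x * y)) ^ n := by
      rw [pow_mul]
      congr 1
      linear_combination hp0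
    rw [h3, mul_pow, mul_pow] at h2
    have hxn : (x : ZMod p) ^ n ≠ 0 := pow_ne_zero _ hx0
    have h5 : (x : ZMod p) ^ n * x ^ n = 1 := by rw [← pow_add, ← two_mul]; exact hxp
    linear_combination (-(x : ZMod p) ^ n) * h2 - (2 ^ n * (y : ZMod p) ^ n) * h5
  have chi : ∀ s : ℤ, s % 2 = 1 → J(2 | s.natAbs) = if s % 8 = 1 ∨ s % 8 = 7 then 1 else -1 := by
    intro s hs
    have hodd : Odd s.natAbs := by rw [Nat.odd_iff]; omega
    rw [jacobiSym.at_two hodd, ZMod.χ₈_nat_eq_if_mod_eight, if_neg (by omega)]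
    split_ifs with a1 a2 a2
    · rfl
    · omega
    · omega
    · rfl
  constructor
  · intro hy
    have hs : (x + y) % 2 = 1 := by omega
    have h1 := key _ hs (chi _ hs)
    -- `n = 2 l`
    obtain ⟨u, hu⟩ : ∃ u, x = 4 * u + 1 := ⟨x / 4, by omega⟩
    have h5 : (4 * (n : ℤ) + 1) = x ^ 2 + y ^ 2 := by rw [← h, hpn]; push_cast; ring
    have h6 : (n : ℤ) = 2 * (2 * u ^ 2 + u + 2 * t ^ 2) := by
      rw [hu, hy] at h5
      linarith
    obtain ⟨l, hl⟩ : ∃ l : ℕ, n = 2 * l := ⟨n / 2, by omega⟩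
    have hl2 : (l : ℤ) = 2 * u ^ 2 + u + 2 * t ^ 2 := by
      rw [hl] at h6; push_cast at h6; linarith
    have hyn : (y : ZMod p) ^ n = (-1) ^ l * (x : ZMod p) ^ n := by
      rw [hl, pow_mul, pow_mul, ← mul_pow]
      congr 1
      linear_combination hp0
    rw [hyn] at h1
    have hxn : (x : ZMod p) ^ n ≠ 0 := pow_ne_zero _ hx0
    have h7 : (2 : ZMod p) ^ n * (-1) ^ l = ((if (x + y) % 8 = 1 ∨ (x + y) % 8 = 7 then 1 else -1 : ℤ) : ZMod p) := by
      apply mul_right_cancel₀ hxn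
      rw [← h1]; ring
    have h8 : (-1 : ZMod p) ^ l * (-1) ^ l = 1 := by rw [← mul_pow]; norm_num
    have h9 : (2 : ZMod p) ^ n = ((if (x + y) % 8 = 1 ∨ (x + y) % 8 = 7 then 1 else -1 : ℤ) : ZMod p) * (-1) ^ l := by
      rw [← h7]; linear_combination (-(2 : ZMod p) ^ n) * h8
    rw [h9]
    have q1 : (2 * u ^ 2) % 2 = 0 := by omega
    have q2 : (2 * t ^ 2) % 2 = 0 := by omega
    rcases Int.emod_two_eq_zero_or_one u with hu2 | hu2
    · have hle : Even l := by rw [Nat.even_iff]; omega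
      rw [hle.neg_one_pow]
      split_ifs with a1 a2 a2 <;> first | (simp; done) | (exfalso; omega)
    · have hlo : Odd l := by rw [Nat.odd_iff]; omega
      rw [hlo.neg_one_pow]
      split_ifs with a1 a2 a2 <;> first | (simp; done) | (exfalso; omega)
  · intro hy
    have hs : (x + y) % 2 = 1 := by omega
    have h1 := key _ hs (chi _ hs)
    obtain ⟨u, hu⟩ : ∃ u, x = 4 * u + 1 := ⟨x / 4, by omega⟩
    have h5 : (4 * (n : ℤ) + 1) = x ^ 2 + y ^ 2 := by rw [← h, hpn]; push_cast; ring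
    have h6 : (n : ℤ) = 2 * (2 * u ^ 2 + u + 2 * (t ^ 2 + t)) + 1 := by
      rw [hu, hy] at h5
      linarith
    obtain ⟨l, hl⟩ : ∃ l : ℕ, n = 2 * l + 1 := ⟨n / 2, by omega⟩
    have hl2 : (l : ℤ) = 2 * u ^ 2 + u + 2 * (t ^ 2 + t) := by
      rw [hl] at h6; push_cast at h6; linarith
    have hyn : (y : ZMod p) ^ n * x = (-1) ^ l * (x : ZMod p) ^ n * y := by
      rw [hl, pow_succ, pow_succ, pow_mul, pow_mul]
      have : ((y : ZMod p) ^ 2) = (-1) * x ^ 2 := by linear_combination hp0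
      rw [this, mul_pow]; ring
    have hxn : (x : ZMod p) ^ n ≠ 0 := pow_ne_zero _ hx0
    have h7 : (2 : ZMod p) ^ n * y * (-1) ^ l =
        ((if (x + y) % 8 = 1 ∨ (x + y) % 8 = 7 then 1 else -1 : ℤ) : ZMod p) * x := by
      apply mul_right_cancel₀ hxn
      linear_combination (x : ZMod p) * h1 - (2 : ZMod p) ^ n * hyn
    have h8 : (-1 : ZMod p) ^ l * (-1) ^ l = 1 := by rw [← mul_pow]; norm_num
    have h9 : (2 : ZMod p) ^ n * y = ((if (x + y) % 8 = 1 ∨ (x + y) % 8 = 7 then 1 else -1 : ℤ) : ZMod p) * x * (-1) ^ l := by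
      rw [← h7]; linear_combination (-(2 : ZMod p) ^ n * y) * h8
    rw [h9]
    rcases Int.emod_two_eq_zero_or_one u with hu2 | hu2
    · have hle : Even l := by rw [Nat.even_iff]; omega
      rw [hle.neg_one_pow]
      split_ifs with a1 a2 a2 <;> first | (simp; done) | (exfalso; omega)
    · have hlo : Odd l := by rw [Nat.odd_iff]; omega
      rw [hlo.neg_one_pow]
      split_ifs with a1 a2 a2 <;> first | (simp; done) | (exfalso; omega)

end Pool.Agent.U951.FD.Quart
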