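import Mathlib

set_option autoImplicit false

/-!
# A derivative of the sum `∑ C(n,k)^2 x^k` at `x = -8` modulo `p = 4 n + 1`

`f(x) = ∑ C(n,k)^2 x^k`, `g(x) = ∑ C(n,k)^2 (H_k - H_{n-k}) x^k` over the field with `p` elements,
`h(t) = g(4 t (1-t))`, `T(t) = f(4 t (1-t))`, `h^*(t) = t^{2n} h(1/t)`. The polynomial
`h(t) + h^*(t) + h^*(1-t)` satisfies the same differential equation of Legendre as `T`, so it is a constant
multiple of `T`. At `t = -1` this gives `2 g(-8) = - H_n f(-8)`.
-/

namespace Pool.Agent.U951.FD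

open Polynomial Finset

variable {p n : ℕ} [hp : Fact p.Prime]

/-- harmonic numbers modulo `p` -/
def hz (p : ℕ) [Fact p.Prime] (k : ℕ) : ZMod p := ∑ i ∈ range k, ((i : ZMod p) + 1)⁻¹

/-- the constant `1/2` -/
noncomputable def cc (p : ℕ) [Fact p.Prime] : (ZMod p)[X] := C ((2 : ZMod p)⁻¹)

/-- the operator of Legendre -/
noncomputable def LL (y : (ZMod p)[X]) : (ZMod p)[X] :=
  X * (1 - X) * derivative (derivative y) + (1 - 2 * X) * derivative y - cc p ^ 2 * y

/-- the hypergeometric operator with parameters `1/4, 1/4; 1` -/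
noncomputable def MM (y : (ZMod p)[X]) : (ZMod p)[X] :=
  X * (1 - X) * derivative (derivative y) + (1 - 3 * cc p * X) * derivative y - cc p ^ 4 * y

theorem two_cc (h2 : (2 : ZMod p) ≠ 0) : 2 * cc p = 1 := by
  rw [cc]
  have : (2 : (ZMod p)[X]) = C 2 := by rw [map_ofNat]
  rw [this, ← C_mul, mul_inv_cancel₀ h2, C_1]

theorem LL_add (y z : (ZMod p)[X]) : LL (y + z) = LL y + LL z := by
  simp only [LL, derivative_add]; ring

theorem LL_sub (y z : (ZMod p)[X]) : LL (y - z) = LL y - LL z := by
  simp only [LL, derivative_sub]; ring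

theorem LL_C_mul (a : ZMod p) (y : (ZMod p)[X]) : LL (C a * y) = C a * LL y := by
  simp only [LL, derivative_C_mul]; ring

theorem coeff_LL (y : (ZMod p)[X]) (j : ℕ) :
    (LL y).coeff j = ((j : ZMod p) + 1) ^ 2 * y.coeff (j + 1) -
      (((j : ZMod p) * ((j : ZMod p) + 1)) + (2 : ZMod p)⁻¹ ^ 2) * y.coeff j := by
  have e : LL y = X * derivative (derivative y) - X ^ 2 * derivative (derivative y) +
      derivative y - C 2 * (X * derivative y) - C ((2 : ZMod p)⁻¹ ^ 2) * y := by
    rw [LL, cc, ← C_pow]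
    have : (2 : (ZMod p)[X]) = C 2 := by rw [map_ofNat]
    rw [this]
    ring
  rw [e]
  simp only [coeff_sub, coeff_add, coeff_C_mul]
  rcases j with _ | _ | j
  · simp [coeff_derivative]
  · rw [coeff_X_pow_mul']
    simp [coeff_derivative, coeff_X_mul]
    ring
  · rw [coeff_X_pow_mul']
    simp [coeff_derivative, coeff_X_mul]
    ring

theorem coeff_MM (y : (ZMod p)[X]) (j : ℕ) :
    (MM y).coeff j = ((j : ZMod p) + 1) ^ 2 * y.coeff (j + 1) -
      (((j : ZMod p) * ((j : ZMod p) - 1)) + 3 * (2 : ZMod p)⁻¹ * j + (2 : ZMod p)⁻¹ ^ 4) * y.coeff j := by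
  have e : MM y = X * derivative (derivative y) - X ^ 2 * derivative (derivative y) +
      derivative y - C (3 * (2 : ZMod p)⁻¹) * (X * derivative y) - C ((2 : ZMod p)⁻¹ ^ 4) * y := by
    rw [MM, cc, ← C_pow, C_mul]
    have : (3 : (ZMod p)[X]) = C 3 := by rw [map_ofNat]
    rw [this]
    ring
  rw [e]
  simp only [coeff_sub, coeff_add, coeff_C_mul]
  rcases j with _ | _ | j
  · simp [coeff_derivative]
  · rw [coeff_X_pow_mul']
    simp [coeff_derivative, coeff_X_mul]
    ring
  · rw [coeff_X_pow_mul']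
    simp [coeff_derivative, coeff_X_mul]
    ring

/-- the substitution -/
noncomputable def ss (p : ℕ) [Fact p.Prime] : (ZMod p)[X] := 4 * X * (1 - X)

theorem d_ss : derivative (ss p) = 4 * (1 - 2 * X) := by
  rw [ss]
  simp only [derivative_mul, derivative_sub, derivative_X, derivative_one, derivative_ofNat]
  ring

theorem LL_comp (h2 : (2 : ZMod p) ≠ 0) (y : (ZMod p)[X]) :
    LL (y.comp (ss p)) = 4 * (MM y).comp (ss p) := by
  have h2c := two_cc h2
  have e1 : derivative (y.comp (ss p)) = 4 * (1 - 2 * X) * (derivative y).comp (ss p) := by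
    rw [derivative_comp, d_ss]
  have e2 : derivative (4 * (1 - 2 * X) * (derivative y).comp (ss p)) =
      -8 * (derivative y).comp (ss p) + 16 * (1 - 2 * X) ^ 2 * (derivative (derivative y)).comp (ss p) := by
    rw [derivative_mul, derivative_comp, d_ss]
    simp only [derivative_mul, derivative_sub, derivative_X, derivative_one, derivative_ofNat]
    ring
  have e3 : (MM y).comp (ss p) = ss p * (1 - ss p) * (derivative (derivative y)).comp (ss p) +
      (1 - 3 * cc p * ss p) * (derivative y).comp (ss p) - cc p ^ 4 * y.comp (ss p) := by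
    rw [MM]
    simp only [sub_comp, add_comp, mul_comp, pow_comp, X_comp, one_comp, ofNat_comp, cc, C_comp]
    push_cast
    ring
  rw [e3, LL, e1, e2]
  generalize (derivative (derivative y)).comp (ss p) = Y2
  generalize (derivative y).comp (ss p) = Y1
  generalize y.comp (ss p) = Y0
  rw [ss]
  linear_combination (-(24 * X * (1 - X)) * Y1 * 1 * (-1) + (Y0 * cc p ^ 2) * (2 * cc p + 1)) * h2c

theorem LL_refl (y : (ZMod p)[X]) : LL (y.comp (1 - X)) = (LL y).comp (1 - X) := by
  have e1 : derivative (y.comp (1 - X)) = -(derivative y).comp (1 - X) := by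
    rw [derivative_comp]
    simp
  have e2 : derivative (-(derivative y).comp (1 - X)) = (derivative (derivative y)).comp (1 - X) := by
    rw [derivative_neg, derivative_comp]
    simp
  rw [LL, e1, e2, LL]
  simp only [sub_comp, add_comp, mul_comp, pow_comp, X_comp, one_comp, ofNat_comp, cc, C_comp]
  push_cast
  ring

theorem ss_refl : (ss p).comp (1 - X) = ss p := by
  rw [ss]
  simp only [sub_comp, add_comp, mul_comp, pow_comp, X_comp, one_comp, ofNat_comp]
  push_cast
  ring

/-- coefficients of `f` -/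
noncomputable def ff (p n : ℕ) [Fact p.Prime] : (ZMod p)[X] :=
  ∑ k ∈ range (n + 1), C ((n.choose k : ZMod p) ^ 2) * X ^ k

/-- coefficients of `g` -/
noncomputable def gg (p n : ℕ) [Fact p.Prime] : (ZMod p)[X] :=
  ∑ k ∈ range (n + 1), C ((n.choose k : ZMod p) ^ 2 * (hz p k - hz p (n - k))) * X ^ k

theorem coeff_ff (k : ℕ) : (ff p n).coeff k = (n.choose k : ZMod p) ^ 2 := by
  rw [ff, finsetSum_coeff]
  simp only [coeff_C_mul, coeff_X_pow, mul_ite, mul_one, mul_zero]
  rw [sum_ite_eq (range (n + 1)) k]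
  split_ifs with h
  · rfl
  · rw [Nat.choose_eq_zero_of_lt (by simpa using h)]; simp

theorem coeff_gg (k : ℕ) : (gg p n).coeff k =
    (n.choose k : ZMod p) ^ 2 * (hz p k - hz p (n - k)) := by
  rw [gg, finsetSum_coeff]
  simp only [coeff_C_mul, coeff_X_pow, mul_ite, mul_one, mul_zero]
  rw [sum_ite_eq (range (n + 1)) k]
  split_ifs with h
  · rfl
  · rw [Nat.choose_eq_zero_of_lt (by simpa using h)]; simp

theorem nat_ne {a : ℕ} (h0 : 0 < a) (ha : a < p) : (a : ZMod p) ≠ 0 := by
  rw [Ne, ZMod.natCast_eq_zero_iff]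
  exact Nat.not_dvd_of_pos_of_lt h0 ha

theorem n_pos (hpn : p = 4 * n + 1) : 0 < n := by
  rcases Nat.eq_zero_or_pos n with h | h
  · exfalso; rw [h] at hpn; exact hp.out.one_lt.ne' (by simpa using hpn)
  · exact h

theorem two_ne (hpn : p = 4 * n + 1) : (2 : ZMod p) ≠ 0 := by
  have hn := n_pos hpn
  have := nat_ne (p := p) (a := 2) (by norm_num) (by omega)
  exact_mod_cast this

/-- `n = -1/4` -/
theorem n_val (hpn : p = 4 * n + 1) : (n : ZMod p) = -(2 : ZMod p)⁻¹ ^ 2 := by
  have h2 := two_ne hpn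
  have h : ((4 * n + 1 : ℕ) : ZMod p) = 0 := by
    rw [← hpn]; exact ZMod.natCast_self p
  push_cast at h
  field_simp
  linear_combination h

theorem choose_rec (k : ℕ) : ((k : ZMod p) + 1) ^ 2 * (n.choose (k + 1) : ZMod p) ^ 2 =
    ((n : ZMod p) - k) ^ 2 * (n.choose k : ZMod p) ^ 2 := by
  rcases le_or_gt k n with h | h
  · have h1 := Nat.choose_succ_right_eq n k
    have h2 : ((n.choose (k + 1) * (k + 1) : ℕ) : ZMod p) = ((n.choose k * (n - k) : ℕ) : ZMod p) := by
      rw [h1]
    push_cast [Nat.cast_sub h] at h2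
    rw [← mul_pow, ← mul_pow]
    congr 1
    linear_combination h2
  · rw [Nat.choose_eq_zero_of_lt h, Nat.choose_eq_zero_of_lt (by omega : n < k + 1)]
    simp

theorem hz_succ (k : ℕ) : hz p (k + 1) = hz p k + ((k : ZMod p) + 1)⁻¹ := by
  rw [hz, hz, sum_range_succ]

theorem MM_ff (hpn : p = 4 * n + 1) : MM (ff p n) = 0 := by
  ext k
  rw [coeff_MM, coeff_ff, coeff_ff, coeff_zero, choose_rec, n_val hpn]
  have h2 := two_ne hpn
  field_simp
  ring

theorem MM_gg (hpn : p = 4 * n + 1) : MM (gg p n) =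
    (1 - X) * derivative (ff p n) - cc p ^ 2 * ff p n := by
  have h2 := two_ne hpn
  have hn := n_val hpn
  ext k
  have e : (1 - X) * derivative (ff p n) - cc p ^ 2 * ff p n =
      derivative (ff p n) - X * derivative (ff p n) - C ((2 : ZMod p)⁻¹ ^ 2) * ff p n := by
    rw [cc, ← C_pow]; ring
  have e1 : (X * derivative (ff p n)).coeff k = (k : ZMod p) * (n.choose k : ZMod p) ^ 2 := by
    rcases k with _ | k
    · simp
    · rw [coeff_X_mul, coeff_derivative, coeff_ff]; push_cast; ring
  rw [e, coeff_sub, coeff_sub, e1, coeff_derivative, coeff_C_mul, coeff_ff, coeff_ff, coeff_MM,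
    coeff_gg, coeff_gg]
  -- the weight `(k+1)^2`
  have e3 : ((k : ZMod p) * ((k : ZMod p) - 1)) + 3 * (2 : ZMod p)⁻¹ * k + (2 : ZMod p)⁻¹ ^ 4 =
      ((n : ZMod p) - k) ^ 2 := by
    rw [hn]; field_simp; ring
  have e4 : (2 : ZMod p)⁻¹ ^ 2 = -(n : ZMod p) := by rw [hn]; ring
  rw [e3, e4]
  have hr := choose_rec (p := p) (n := n) k
  rcases lt_trichotomy k n with h | h | h
  · obtain ⟨l, hl⟩ : ∃ l, n = k + 1 + l := ⟨n - (k + 1), by omega⟩
    have f1 : n - (k + 1) = l := by omega
    have f2 : n - k = l + 1 := by omega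
    have f3 : (n : ZMod p) - k = (l : ZMod p) + 1 := by rw [hl]; push_cast; ring
    have g1 : (k : ZMod p) + 1 ≠ 0 := by
      have := nat_ne (p := p) (a := k + 1) (by omega) (by omega)
      exact_mod_cast this
    have g2 : (l : ZMod p) + 1 ≠ 0 := by
      have := nat_ne (p := p) (a := l + 1) (by omega) (by omega)
      exact_mod_cast this
    rw [f1, f2, hz_succ, hz_succ]
    rw [f3] at hr ⊢
    have hn' : (n : ZMod p) = (l : ZMod p) + 1 + k := by linear_combination f3
    rw [hn']
    generalize (n.choose (k + 1) : ZMod p) = A at *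
    generalize (n.choose k : ZMod p) = B at *
    generalize hz p k = u
    generalize hz p l = v
    have i1 : ((k : ZMod p) + 1)⁻¹ * ((k : ZMod p) + 1) = 1 := inv_mul_cancel₀ g1
    have i2 : ((l : ZMod p) + 1)⁻¹ * ((l : ZMod p) + 1) = 1 := inv_mul_cancel₀ g2
    generalize ((k : ZMod p) + 1)⁻¹ = i at *
    generalize ((l : ZMod p) + 1)⁻¹ = j at *
    linear_combination (u - v) * hr + A ^ 2 * ((k : ZMod p) + 1) * i1 + B ^ 2 * ((l : ZMod p) + 1) * i2
  · subst h
    rw [Nat.choose_succ_self]
    simp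
  · rw [Nat.choose_eq_zero_of_lt h, Nat.choose_eq_zero_of_lt (by omega : n < k + 1)]
    simp

/-- `T(t) = f(4 t (1-t))` -/
noncomputable def TT (p n : ℕ) [Fact p.Prime] : (ZMod p)[X] := (ff p n).comp (ss p)

/-- `h(t) = g(4 t (1-t))` -/
noncomputable def hh (p n : ℕ) [Fact p.Prime] : (ZMod p)[X] := (gg p n).comp (ss p)

theorem LL_TT (hpn : p = 4 * n + 1) : LL (TT p n) = 0 := by
  rw [TT, LL_comp (two_ne hpn), MM_ff hpn, zero_comp, mul_zero]

theorem d_TT : derivative (TT p n) = 4 * (1 - 2 * X) * (derivative (ff p n)).comp (ss p) := by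
  rw [TT, derivative_comp, d_ss]

theorem LL_hh (hpn : p = 4 * n + 1) : LL (hh p n) = (1 - 2 * X) * derivative (TT p n) - TT p n := by
  rw [hh, LL_comp (two_ne hpn), MM_gg hpn, d_TT, TT]
  have h2c := two_cc (two_ne hpn)
  have e3 : ((1 - X) * derivative (ff p n) - cc p ^ 2 * ff p n).comp (ss p) =
      (1 - ss p) * (derivative (ff p n)).comp (ss p) - cc p ^ 2 * (ff p n).comp (ss p) := by
    simp only [sub_comp, mul_comp, pow_comp, X_comp, one_comp, cc, C_comp]
  rw [e3]
  generalize (derivative (ff p n)).comp (ss p) = Y1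
  generalize (ff p n).comp (ss p) = Y0
  rw [ss]
  linear_combination (-(2 * cc p + 1) * Y0) * h2c

theorem natDegree_ss : (ss p).natDegree ≤ 2 := by
  rw [ss]
  have : (4 * X * (1 - X) : (ZMod p)[X]) = C 4 * X * (1 - X) := by
    have : (4 : (ZMod p)[X]) = C 4 := by rw [map_ofNat]
    rw [this]
  rw [this]
  compute_degree

theorem natDegree_comp_ss (y : (ZMod p)[X]) (hy : y.natDegree ≤ n) :
    (y.comp (ss p)).natDegree ≤ 2 * n := by
  refine natDegree_comp_le.trans ?_
  calc y.natDegree * (ss p).natDegree ≤ n * 2 := Nat.mul_le_mul hy natDegree_ss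
    _ = 2 * n := by ring

theorem natDegree_ff : (ff p n).natDegree ≤ n := by
  rw [natDegree_le_iff_coeff_eq_zero]
  intro k hk
  rw [coeff_ff, Nat.choose_eq_zero_of_lt hk]; simp

theorem natDegree_gg : (gg p n).natDegree ≤ n := by
  rw [natDegree_le_iff_coeff_eq_zero]
  intro k hk
  rw [coeff_gg, Nat.choose_eq_zero_of_lt hk]; simp

theorem natDegree_TT : (TT p n).natDegree ≤ 2 * n := natDegree_comp_ss _ natDegree_ff
theorem natDegree_hh : (hh p n).natDegree ≤ 2 * n := natDegree_comp_ss _ natDegree_gg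

theorem coeff_ss_two : (ss p).coeff 2 = -4 := by
  have : ss p = C 4 * X - C 4 * X ^ 2 := by
    have : (4 : (ZMod p)[X]) = C 4 := by rw [map_ofNat]
    rw [ss, this]; ring
  rw [this, coeff_sub, coeff_C_mul, coeff_C_mul, coeff_X_pow, coeff_X]
  norm_num

theorem coeff_comp_top (a : ℕ → ZMod p) :
    ((∑ k ∈ range (n + 1), C (a k) * X ^ k).comp (ss p)).coeff (2 * n) = a n * (-4) ^ n := by
  rw [Polynomial.sum_comp, finsetSum_coeff]
  simp only [mul_comp, C_comp, X_pow_comp, coeff_C_mul]
  rw [sum_range_succ, sum_eq_zero, zero_add]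
  · congr 1
    rw [mul_comm 2 n, coeff_pow_of_natDegree_le natDegree_ss, coeff_ss_two]
  · intro k hk
    have hk' := mem_range.1 hk
    rw [coeff_eq_zero_of_natDegree_lt, mul_zero]
    calc ((ss p) ^ k).natDegree ≤ k * (ss p).natDegree := natDegree_pow_le
      _ ≤ k * 2 := Nat.mul_le_mul_left k natDegree_ss
      _ < 2 * n := by omega

theorem coeff_TT_top : (TT p n).coeff (2 * n) = (-4) ^ n := by
  rw [TT, ff, coeff_comp_top]; simp

theorem coeff_hh_top : (hh p n).coeff (2 * n) = hz p n * (-4) ^ n := by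
  rw [hh, gg, coeff_comp_top]; simp [hz]

/-- `(-4)^n = 1` modulo `p = 4n+1` -/
theorem neg_four_pow (hpn : p = 4 * n + 1) : (-4 : ZMod p) ^ n = 1 := by
  obtain ⟨i, hi⟩ := ZMod.exists_sq_eq_neg_one_iff.2 (show p % 4 ≠ 3 by omega)
  have h4 : (-4 : ZMod p) = (1 + i) ^ 4 := by
    linear_combination (i * i + 4 * i + 5) * hi
  have h2 := two_ne hpn
  have h0 : (1 + i) ≠ 0 := by
    intro h
    rw [h] at h4
    apply h2
    have : (2 : ZMod p) * 2 = 0 := by linear_combination -h4
    rcases mul_eq_zero.1 this with h | h <;> exact h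
  rw [h4, ← pow_mul]
  have := ZMod.pow_card_sub_one_eq_one h0
  rwa [show p - 1 = 4 * n by omega] at this

theorem eval_ss_zero : (ss p).eval 0 = 0 := by simp [ss]
theorem eval_ss_one : (ss p).eval 1 = 0 := by simp [ss]

/-- `2 n = -1/2` -/
theorem m_val (hpn : p = 4 * n + 1) : ((2 * n : ℕ) : ZMod p) = -(2 : ZMod p)⁻¹ := by
  have h2 := two_ne hpn
  have h := n_val hpn
  push_cast
  rw [h]
  field_simp

/-- uniqueness of the polynomial solution -/
theorem uniq (hpn : p = 4 * n + 1) (y : (ZMod p)[X]) (hy : LL y = 0) (hd : y.natDegree ≤ 2 * n) :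
    y = C (y.coeff 0) * TT p n := by
  have hn := n_pos hpn
  have hT0 : (TT p n).coeff 0 = 1 := by
    rw [coeff_zero_eq_eval_zero, TT, eval_comp, eval_ss_zero, ← coeff_zero_eq_eval_zero, coeff_ff]
    simp
  rw [← sub_eq_zero]
  set z := y - C (y.coeff 0) * TT p n with hz
  have hLz : LL z = 0 := by rw [hz, LL_sub, LL_C_mul, hy, LL_TT hpn]; ring
  have hz0 : z.coeff 0 = 0 := by rw [hz, coeff_sub, coeff_C_mul, hT0]; ring
  have key : ∀ j, j ≤ 2 * n → z.coeff j = 0 := by
    intro j
    induction j with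
    | zero => intro _; exact hz0
    | succ j ih =>
      intro hj
      have h1 := ih (by omega)
      have h3 := coeff_LL z j
      rw [hLz, coeff_zero, h1, mul_zero, sub_zero] at h3
      have h4 : (j : ZMod p) + 1 ≠ 0 := by
        have := nat_ne (p := p) (a := j + 1) (by omega) (by omega)
        exact_mod_cast this
      rcases mul_eq_zero.1 h3.symm with h | h
      · exact absurd (pow_eq_zero_iff (by norm_num)|>.1 h) h4
      · exact h
  ext j
  rw [coeff_zero]
  rcases le_or_gt j (2 * n) with h | h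
  · exact key j h
  · rw [hz, coeff_sub, coeff_C_mul, coeff_eq_zero_of_natDegree_lt (by omega),
      coeff_eq_zero_of_natDegree_lt (lt_of_le_of_lt natDegree_TT h)]
    ring

/-- reversal and the operator: coefficients -/
theorem coeff_LL_reflect (hpn : p = 4 * n + 1) (y : (ZMod p)[X]) (hd : y.natDegree ≤ 2 * n) (j : ℕ) :
    (LL (y.reflect (2 * n))).coeff j = if j < 2 * n then -(LL y).coeff (2 * n - 1 - j) else 0 := by
  have h2 := two_ne hpn
  have hm := m_val hpn
  rw [coeff_LL, coeff_reflect, coeff_reflect]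
  split_ifs with h
  · obtain ⟨i, hi⟩ : ∃ i, 2 * n = j + 1 + i := ⟨2 * n - (j + 1), by omega⟩
    rw [revAt_le (by omega), revAt_le (by omega), coeff_LL, show 2 * n - 1 - j = i by omega,
      show 2 * n - (j + 1) = i by omega, show 2 * n - j = i + 1 by omega]
    rw [hi] at hm
    push_cast at hm
    have hm' : (j : ZMod p) = -(2 : ZMod p)⁻¹ - 1 - i := by linear_combination hm
    rw [hm']
    field_simp
    ring
  · rcases eq_or_lt_of_le (not_lt.1 h) with h' | h'
    · rw [← h', revAt_le (le_refl _), revAt_eq_self_of_lt (Nat.lt_succ_self _), hm]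
      rw [coeff_eq_zero_of_natDegree_lt (lt_of_le_of_lt hd (Nat.lt_succ_self _))]
      field_simp
      ring
    · rw [revAt_eq_self_of_lt (show 2 * n < j + 1 by omega), revAt_eq_self_of_lt h']
      rw [coeff_eq_zero_of_natDegree_lt (by omega), coeff_eq_zero_of_natDegree_lt (by omega)]
      ring

theorem natDegree_reflect_le' (y : (ZMod p)[X]) (hd : y.natDegree ≤ 2 * n) :
    (y.reflect (2 * n)).natDegree ≤ 2 * n := by
  rw [natDegree_le_iff_coeff_eq_zero]
  intro k hk
  rw [coeff_reflect, revAt_eq_self_of_lt hk]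
  exact coeff_eq_zero_of_natDegree_lt (by omega)

/-- `T` is palindromic -/
theorem TT_palin (hpn : p = 4 * n + 1) (j : ℕ) (hj : j ≤ 2 * n) :
    (TT p n).coeff (2 * n - j) = (TT p n).coeff j := by
  have h1 : LL ((TT p n).reflect (2 * n)) = 0 := by
    ext i
    rw [coeff_LL_reflect hpn _ natDegree_TT, LL_TT hpn]
    simp
  have h2 := uniq hpn _ h1 (natDegree_reflect_le' _ natDegree_TT)
  have h3 : ((TT p n).reflect (2 * n)).coeff 0 = 1 := by
    rw [coeff_reflect, revAt_le (Nat.zero_le _), Nat.sub_zero, coeff_TT_top, neg_four_pow hpn]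
  rw [h3, C_1, one_mul] at h2
  have h4 := congrArg (fun q => q.coeff j) h2
  beta_reduce at h4
  rw [coeff_reflect, revAt_le hj] at h4
  exact h4

/-- the differential equation of the reversed polynomial -/
theorem LL_hh_reflect (hpn : p = 4 * n + 1) : LL ((hh p n).reflect (2 * n)) =
    (X - 2) * derivative (TT p n) + cc p * TT p n := by
  have h2 := two_ne hpn
  have hm := m_val hpn
  have e : (X - 2) * derivative (TT p n) + cc p * TT p n =
      X * derivative (TT p n) - C 2 * derivative (TT p n) + C ((2 : ZMod p)⁻¹) * TT p n := by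
    have : (2 : (ZMod p)[X]) = C 2 := by rw [map_ofNat]
    rw [cc, this]; ring
  have e1 : ∀ i : ℕ, (X * derivative (TT p n)).coeff i = (i : ZMod p) * (TT p n).coeff i := by
    intro i
    rcases i with _ | i
    · simp
    · rw [coeff_X_mul, coeff_derivative]; push_cast; ring
  have e' : (1 - 2 * X) * derivative (TT p n) - TT p n =
      derivative (TT p n) - C 2 * (X * derivative (TT p n)) - TT p n := by
    have : (2 : (ZMod p)[X]) = C 2 := by rw [map_ofNat]
    rw [this]; ring
  ext j
  rw [coeff_LL_reflect hpn _ natDegree_hh, LL_hh hpn, e, e']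
  simp only [coeff_sub, coeff_add, coeff_C_mul, e1, coeff_derivative]
  split_ifs with h
  · obtain ⟨i, hi⟩ : ∃ i, 2 * n = j + 1 + i := ⟨2 * n - (j + 1), by omega⟩
    have p1 := TT_palin hpn j (by omega)
    have p2 := TT_palin hpn (j + 1) (by omega)
    rw [show 2 * n - 1 - j = i by omega]
    rw [show 2 * n - j = i + 1 by omega] at p1
    rw [show 2 * n - (j + 1) = i by omega] at p2
    rw [p1, p2]
    rw [hi] at hm
    push_cast at hm
    have hm' : (i : ZMod p) = -(2 : ZMod p)⁻¹ - 1 - j := by linear_combination hm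
    rw [hm']
    field_simp
    ring
  · rcases eq_or_lt_of_le (not_lt.1 h) with h' | h'
    · rw [← h', hm, coeff_eq_zero_of_natDegree_lt (lt_of_le_of_lt natDegree_TT (Nat.lt_succ_self _))]
      ring
    · rw [coeff_eq_zero_of_natDegree_lt (lt_of_le_of_lt natDegree_TT h'),
        coeff_eq_zero_of_natDegree_lt (lt_of_le_of_lt natDegree_TT (by omega : 2 * n < j + 1))]
      ring

theorem TT_refl : (TT p n).comp (1 - X) = TT p n := by
  rw [TT, comp_assoc, ss_refl]

theorem dTT_refl : (derivative (TT p n)).comp (1 - X) = -derivative (TT p n) := by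
  have h := congrArg derivative (TT_refl (p := p) (n := n))
  rw [derivative_comp] at h
  simp at h
  linear_combination -h

/-- values of a reversed polynomial -/
theorem eval_reflect (y : (ZMod p)[X]) (hd : y.natDegree ≤ 2 * n) (x : ZMod p) (hx : x ≠ 0) :
    (y.reflect (2 * n)).eval x⁻¹ * x ^ (2 * n) = y.eval x := by
  haveI := invertibleOfNonzero hx
  have h := eval₂_reflect_mul_pow (RingHom.id (ZMod p)) x (2 * n) y hd
  rw [invOf_eq_inv] at h
  exact h

theorem gg_eval_one (h2 : (2 : ZMod p) ≠ 0) : (gg p n).eval 1 = 0 := by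
  have h1 : (gg p n).eval 1 = ∑ k ∈ range (n + 1), (n.choose k : ZMod p) ^ 2 * (hz p k - hz p (n - k)) := by
    rw [gg, eval_finset_sum]
    simp
  have h3 : (gg p n).eval 1 = -(gg p n).eval 1 := by
    rw [h1, ← sum_neg_distrib]
    rw [← sum_range_reflect]
    refine sum_congr rfl fun k hk => ?_
    have hk' := mem_range.1 hk
    rw [show n + 1 - 1 - k = n - k by omega, show n - (n - k) = k by omega,
      Nat.choose_symm (by omega : k ≤ n)]
    ring
  have h4 : 2 * (gg p n).eval 1 = 0 := by linear_combination h3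
  exact (mul_eq_zero.1 h4).resolve_left h2

theorem gg_eval_zero : (gg p n).eval 0 = -hz p n := by
  rw [← coeff_zero_eq_eval_zero, coeff_gg]
  simp [hz]

/-- the symmetrised polynomial -/
theorem main_poly (hpn : p = 4 * n + 1) :
    hh p n + (hh p n).reflect (2 * n) + ((hh p n).reflect (2 * n)).comp (1 - X) =
      C (-hz p n) * TT p n := by
  have h2 := two_ne hpn
  have h2c := two_cc h2
  set Y := hh p n + (hh p n).reflect (2 * n) + ((hh p n).reflect (2 * n)).comp (1 - X) with hY
  have hL : LL Y = 0 := by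
    have e : ((X - 2) * derivative (TT p n) + cc p * TT p n).comp (1 - X) =
        (1 - X - 2) * (-derivative (TT p n)) + cc p * TT p n := by
      rw [add_comp, mul_comp, mul_comp, dTT_refl, TT_refl]
      simp only [sub_comp, X_comp, ofNat_comp, cc, C_comp]
      push_cast
      ring
    rw [hY, LL_add, LL_add, LL_refl, LL_hh_reflect hpn, LL_hh hpn, e]
    linear_combination TT p n * h2c
  have hd : Y.natDegree ≤ 2 * n := by
    have a1 := natDegree_reflect_le' (hh p n) (natDegree_hh (p := p) (n := n))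
    have a2 : (((hh p n).reflect (2 * n)).comp (1 - X)).natDegree ≤ 2 * n := by
      refine natDegree_comp_le.trans ?_
      have : (1 - X : (ZMod p)[X]).natDegree ≤ 1 := by compute_degree
      calc _ ≤ (2 * n) * 1 := Nat.mul_le_mul a1 this
        _ = 2 * n := by ring
    exact (natDegree_add_le _ _).trans (max_le ((natDegree_add_le _ _).trans (max_le natDegree_hh a1)) a2)
  have h := uniq hpn Y hL hd
  have hY0 : Y.coeff 0 = -hz p n := by
    have b1 : (hh p n).eval 0 = -hz p n := by
      rw [hh, eval_comp, eval_ss_zero, gg_eval_zero]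
    have b2 : ((hh p n).reflect (2 * n)).eval 0 = hz p n := by
      rw [← coeff_zero_eq_eval_zero, coeff_reflect, revAt_le (Nat.zero_le _), Nat.sub_zero,
        coeff_hh_top, neg_four_pow hpn, mul_one]
    have b3 : ((hh p n).reflect (2 * n)).eval 1 = -hz p n := by
      have := eval_reflect (hh p n) (natDegree_hh (p := p) (n := n)) 1 one_ne_zero
      rw [inv_one, one_pow, mul_one] at this
      rw [this, hh, eval_comp, eval_ss_one, gg_eval_zero]
    rw [coeff_zero_eq_eval_zero, hY, eval_add, eval_add, b1, b2, eval_comp]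
    simp only [eval_sub, eval_one, eval_X, sub_zero]
    rw [b3]
    ring
  rw [h, hY0]

/-- **Main theorem of this file.** -/
theorem main (hpn : p = 4 * n + 1) :
    2 * ∑ k ∈ range (n + 1), (n.choose k : ZMod p) ^ 2 * (hz p k - hz p (n - k)) * (-8) ^ k =
      -hz p n * ∑ k ∈ range (n + 1), (n.choose k : ZMod p) ^ 2 * (-8) ^ k := by
  have h2 := two_ne hpn
  have h := congrArg (fun q => q.eval (-1)) (main_poly hpn)
  beta_reduce at h
  rw [eval_add, eval_add, eval_comp, eval_mul, eval_C] at h
  simp only [eval_sub, eval_one, eval_X] at h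
  have s1 : (ss p).eval (-1) = -8 := by
    rw [ss]; simp; norm_num
  have a1 : (hh p n).eval (-1) =
      ∑ k ∈ range (n + 1), (n.choose k : ZMod p) ^ 2 * (hz p k - hz p (n - k)) * (-8) ^ k := by
    rw [hh, eval_comp, s1, gg, eval_finset_sum]
    simp
  have a2 : (TT p n).eval (-1) = ∑ k ∈ range (n + 1), (n.choose k : ZMod p) ^ 2 * (-8) ^ k := by
    rw [TT, eval_comp, s1, ff, eval_finset_sum]
    simp
  have a3 : ((hh p n).reflect (2 * n)).eval (-1) = (hh p n).eval (-1) := by
    have := eval_reflect (hh p n) (natDegree_hh (p := p) (n := n)) (-1) (by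
      intro h; apply one_ne_zero (α := ZMod p); linear_combination -h)
    rw [inv_neg, inv_one, pow_mul] at this
    simpa using this
  have a4 : ((hh p n).reflect (2 * n)).eval (1 - -1) = 0 := by
    have := eval_reflect (hh p n) (natDegree_hh (p := p) (n := n)) ((2 : ZMod p)⁻¹) (inv_ne_zero h2)
    have e : (hh p n).eval ((2 : ZMod p)⁻¹) = 0 := by
      rw [hh, eval_comp]
      have : (ss p).eval ((2 : ZMod p)⁻¹) = 1 := by
        rw [ss]; simp
        field_simp
        norm_num
      rw [this, gg_eval_one h2]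
    rw [e, inv_inv] at this
    have e2 : (1 - -1 : ZMod p) = 2 := by norm_num
    rw [e2]
    exact (mul_eq_zero.1 this).resolve_right (pow_ne_zero _ (inv_ne_zero h2))
  rw [a3, a4, add_zero, a1, a2] at h
  linear_combination h

end Pool.Agent.U951.FD
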