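import Mathlib
import Pool.Agent.U951.FD.Poly
import Pool.Agent.R439.FD.FC
import Pool.Agent.R488.Cub.Harm

set_option autoImplicit false

/-!
# Reduction: `(-8)^n S₂ = S₁ v (v + 1) / 2` modulo `p^2`, `v = (-4)^n`
-/

namespace Pool.Agent.U951.FD

open Finset Pool.Agent.R439.PL Pool.Agent.R439.PL.S4
open Pool.Agent.R488.Cub (gb H prod1 H_sub H_mem prodH prod_choose)

variable {p n : ℕ} [hp : Fact p.Prime]

theorem den_ne {x : ℚ} (hx : x ∈ Zp p) : ((x.den : ℕ) : ZMod p) ≠ 0 := by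
  have := den_of_I (p := p) (k := 0) (I_zero_iff.2 hx)
  rw [pow_zero, div_one] at this
  rwa [Ne, ZMod.natCast_eq_zero_iff]

/-- `x` is `p`-integral with reduction `a` -/
def R (p : ℕ) [Fact p.Prime] (x : ℚ) (a : ZMod p) : Prop := x ∈ Zp p ∧ ((x : ℚ) : ZMod p) = a

variable {x y : ℚ} {a b : ZMod p}

theorem R.add (h1 : R p x a) (h2 : R p y b) : R p (x + y) (a + b) :=
  ⟨add_mem h1.1 h2.1, by rw [Rat.cast_add_of_ne_zero (den_ne h1.1) (den_ne h2.1), h1.2, h2.2]⟩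

theorem R.mul (h1 : R p x a) (h2 : R p y b) : R p (x * y) (a * b) :=
  ⟨mul_mem h1.1 h2.1, by rw [Rat.cast_mul_of_ne_zero (den_ne h1.1) (den_ne h2.1), h1.2, h2.2]⟩

theorem R.int (z : ℤ) : R p (z : ℚ) (z : ZMod p) := ⟨int_mem z, by rw [Rat.cast_intCast]⟩

theorem R.nat (z : ℕ) : R p (z : ℚ) (z : ZMod p) := ⟨nat_mem z, by rw [Rat.cast_natCast]⟩

theorem R.neg (h1 : R p x a) : R p (-x) (-a) := by
  have := (R.int (p := p) (-1)).mul h1
  simpa using this

theorem R.sub (h1 : R p x a) (h2 : R p y b) : R p (x - y) (a - b) := by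
  rw [sub_eq_add_neg, sub_eq_add_neg]; exact h1.add h2.neg

theorem R.pow (h1 : R p x a) (k : ℕ) : R p (x ^ k) (a ^ k) := by
  induction k with
  | zero => simpa using R.nat (p := p) 1
  | succ k ih => rw [pow_succ, pow_succ]; exact ih.mul h1

theorem R.sum {ι : Type*} {s : Finset ι} {f : ι → ℚ} {g : ι → ZMod p} (h : ∀ i ∈ s, R p (f i) (g i)) :
    R p (∑ i ∈ s, f i) (∑ i ∈ s, g i) := by
  classical
  induction s using Finset.induction_on with
  | empty => simpa using R.nat (p := p) 0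
  | insert a s ha ih =>
    rw [sum_insert ha, sum_insert ha]
    exact (h a (mem_insert_self _ _)).add (ih fun i hi => h i (mem_insert_of_mem hi))

theorem R.inv (h1 : R p x a) (hx : U p x) : R p x⁻¹ a⁻¹ := by
  refine ⟨hx.2.2, ?_⟩
  have h2 : R p x⁻¹ ((x⁻¹ : ℚ) : ZMod p) := ⟨hx.2.2, rfl⟩
  have h3 := h1.mul h2
  rw [mul_inv_cancel₀ hx.1] at h3
  have h4 : (1 : ZMod p) = a * ((x⁻¹ : ℚ) : ZMod p) := by
    have := h3.2
    rw [Rat.cast_one] at this
    exact this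
  exact (inv_eq_of_mul_eq_one_right h4.symm).symm

theorem R.zero (h : R p x 0) : I p 1 x := by
  have hd := den_ne h.1
  have h2 := h.2
  rw [Rat.cast_def, div_eq_zero_iff] at h2
  rcases h2 with h2 | h2
  · rw [ZMod.intCast_zmod_eq_zero_iff_dvd] at h2
    obtain ⟨c, hc⟩ := h2
    refine ⟨(c : ℚ) / ((x.den : ℤ) : ℚ), ⟨c, x.den, ?_, rfl⟩, ?_⟩
    · intro h3
      apply hd
      rw [ZMod.natCast_eq_zero_iff]
      exact_mod_cast h3
    · calc x = (x.num : ℚ) / (x.den : ℚ) := (Rat.num_div_den x).symm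
        _ = ((p * c : ℤ) : ℚ) / (x.den : ℚ) := by rw [hc]
        _ = (p : ℚ) ^ 1 * ((c : ℚ) / ((x.den : ℤ) : ℚ)) := by push_cast; ring
  · exact absurd h2 hd

theorem R_H {k : ℕ} (hk : k < p) : R p (H k) (hz p k) := by
  rw [H, hz]
  refine R.sum fun i hi => ?_
  have hi' := mem_range.1 hi
  have hu := U_nat (p := p) (k := i + 1) (by omega) (by omega)
  have h1 := (R.nat (p := p) (i + 1)).inv hu
  rw [one_div]
  push_cast at h1
  exact h1

/-- the derivative at `-8` -/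
def DS (n : ℕ) : ℚ := ∑ k ∈ range (n + 1), (n.choose k : ℚ) ^ 2 * (H k - H (n - k)) * (-8) ^ k

def FS (n : ℕ) : ℚ := ∑ k ∈ range (n + 1), (n.choose k : ℚ) ^ 2 * (-8) ^ k

theorem R_m8 : R p (-8 : ℚ) (-8) := by
  have := R.int (p := p) (-8)
  push_cast at this
  exact this

theorem DS_I (hpn : p = 4 * n + 1) : I p 1 (2 * DS n + H n * FS n) := by
  have h1 : R p (DS n) (∑ k ∈ range (n + 1), (n.choose k : ZMod p) ^ 2 * (hz p k - hz p (n - k)) * (-8) ^ k) := by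
    refine R.sum fun k hk => ?_
    have hk' := mem_range.1 hk
    exact (((R.nat _).pow 2).mul ((R_H (by omega)).sub (R_H (by omega)))).mul (R_m8.pow k)
  have h2 : R p (FS n) (∑ k ∈ range (n + 1), (n.choose k : ZMod p) ^ 2 * (-8) ^ k) := by
    refine R.sum fun k hk => ?_
    exact ((R.nat _).pow 2).mul (R_m8.pow k)
  have h3 := ((R.nat (p := p) 2).mul h1).add ((R_H (p := p) (k := n) (by omega)).mul h2)
  have h4 := main hpn
  have e : ((2 : ℕ) : ZMod p) * (∑ k ∈ range (n + 1), (n.choose k : ZMod p) ^ 2 * (hz p k - hz p (n - k)) * (-8) ^ k) +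
      hz p n * (∑ k ∈ range (n + 1), (n.choose k : ZMod p) ^ 2 * (-8) ^ k) = 0 := by
    push_cast
    rw [h4]
    ring
  rw [e] at h3
  push_cast at h3
  exact h3.zero

/-- expansion of `C(-1/4,k)` -/
theorem gb_exp (hpn : p = 4 * n + 1) {k : ℕ} (hk : k ≤ n) :
    EQ p 2 (gb (-1 / 4) k) ((n.choose k : ℚ) * (1 - p * (4 : ℚ)⁻¹ * (H n - H (n - k)))) := by
  have hn := n_pos hpn
  have u4 := U_nat (p := p) (k := 4) (by norm_num) (by omega)
  push_cast at u4
  have hI : I p 1 ((p : ℚ) * (4 : ℚ)⁻¹) := (I_p (p := p)).mulR u4.2.2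
  have h1 := prodH (p := p) (a := n) (b := k) hk (by omega) hI
  rw [prod_choose n k hk] at h1
  have uk := U_fac (p := p) (k := k) (by omega)
  have h2 := h1.mul (EQ.refl (k := 2) uk.inv.2.1)
  have hq : (p : ℚ) = 4 * n + 1 := by exact_mod_cast hpn
  have e1 : (∏ i ∈ range k, ((n : ℚ) - i - p * (4 : ℚ)⁻¹)) * (k.factorial : ℚ)⁻¹ = gb (-1 / 4) k := by
    rw [gb, div_eq_mul_inv]
    congr 1
    refine prod_congr rfl fun i _ => ?_
    rw [hq]; ring
  rw [e1] at h2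
  have e2 : (n.choose k : ℚ) * k.factorial * (1 - p * (4 : ℚ)⁻¹ * (H n - H (n - k))) *
      (k.factorial : ℚ)⁻¹ = (n.choose k : ℚ) * (1 - p * (4 : ℚ)⁻¹ * (H n - H (n - k))) := by
    have := uk.1
    field_simp
  rwa [e2] at h2

theorem gb_sq (hpn : p = 4 * n + 1) {k : ℕ} (hk : k ≤ n) :
    EQ p 2 (gb (-1 / 4) k ^ 2) ((n.choose k : ℚ) ^ 2 * (1 - p * (2 : ℚ)⁻¹ * (H n - H (n - k)))) := by
  have hn := n_pos hpn
  have u2 := U_nat (p := p) (k := 2) (by norm_num) (by omega)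
  have u4 := U_nat (p := p) (k := 4) (by norm_num) (by omega)
  push_cast at u2 u4
  have h1 := (gb_exp hpn hk).pow 2
  have mH : H n - H (n - k) ∈ Zp p := sub_mem (H_mem (by omega)) (H_mem (by omega))
  have hI : I p 1 ((p : ℚ) * (4 : ℚ)⁻¹ * (H n - H (n - k))) :=
    ((I_p (p := p)).mulR u4.2.2).mulR mH
  have mC : (n.choose k : ℚ) ^ 2 ∈ Zp p := pow_mem (nat_mem _) 2
  refine h1.trans ⟨h1.2.1, mul_mem mC (sub_mem (one_mem _) (mul_mem (mul_mem p_mem u2.2.2) mH)), ?_⟩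
  have h2 := (hI.mul hI).mulL mC
  convert h2 using 1
  ring

theorem gb_big (hpn : p = 4 * n + 1) {k : ℕ} (h1 : n < k) (h2 : k < p) : I p 1 (gb (-1 / 4) k) := by
  have hn := n_pos hpn
  have u4 := U_nat (p := p) (k := 4) (by norm_num) (by omega)
  push_cast at u4
  have uk := U_fac (p := p) (k := k) h2
  have hq : (p : ℚ) = 4 * n + 1 := by exact_mod_cast hpn
  have m1 : ∀ i : ℕ, (-1 / 4 - (i : ℚ)) ∈ Zp p := fun i => by
    refine sub_mem ?_ (nat_mem i)
    rw [div_eq_mul_inv]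
    exact mul_mem (neg_mem (one_mem _)) u4.2.2
  rw [gb, div_eq_mul_inv, ← mul_prod_erase (range k) _ (mem_range.2 h1)]
  have e : (-1 / 4 - (n : ℚ)) = -(p * (4 : ℚ)⁻¹) := by rw [hq]; ring
  rw [e]
  exact ((((I_p (p := p)).mulR u4.2.2).neg).mulR (prod_mem fun i _ => m1 i)).mulR uk.2.2

theorem sum_exp (hpn : p = 4 * n + 1) (w : ℕ → ℚ) (hw : ∀ k, w k ∈ Zp p) :
    EQ p 2 (∑ k ∈ range p, gb (-1 / 4) k ^ 2 * w k)
      (∑ k ∈ range (n + 1), (n.choose k : ℚ) ^ 2 * (1 - p * (2 : ℚ)⁻¹ * (H n - H (n - k))) * w k) := by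
  have h9 : p = n + 1 + 3 * n := by omega
  have h1 : ∑ k ∈ range p, gb (-1 / 4) k ^ 2 * w k = ∑ k ∈ range (n + 1), gb (-1 / 4) k ^ 2 * w k +
      ∑ x ∈ range (3 * n), gb (-1 / 4) (n + 1 + x) ^ 2 * w (n + 1 + x) := by
    rw [← sum_range_add, ← h9]
  rw [h1, ← add_zero (∑ k ∈ range (n + 1), (n.choose k : ℚ) ^ 2 * (1 - p * (2 : ℚ)⁻¹ * (H n - H (n - k))) * w k)]
  refine EQ.add ?_ ?_
  · refine EQ.sum fun k hk => ?_
    have hk' := mem_range.1 hk
    exact (gb_sq hpn (by omega)).mul (EQ.refl (hw k))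
  · have h2 : I p 2 (∑ x ∈ range (3 * n), gb (-1 / 4) (n + 1 + x) ^ 2 * w (n + 1 + x)) := by
      refine I.sum fun x hx => ?_
      have hx' := mem_range.1 hx
      have h3 := gb_big hpn (k := n + 1 + x) (by omega) (by omega)
      rw [pow_two]
      exact (h3.mul h3).mulR (hw _)
    exact ⟨h2.mem, zero_mem _, by rwa [sub_zero]⟩

/-- the second sum -/
def S2 (p : ℕ) : ℚ := ∑ k ∈ range p, gb (-1 / 4) k ^ 2 / (-8) ^ k

theorem U_m8 (hpn : p = 4 * n + 1) : U p (-8 : ℚ) := by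
  have hn := n_pos hpn
  have hp2 : ¬ (p : ℤ) ∣ -8 := by
    intro h
    rw [dvd_neg] at h
    have h1 : (p : ℤ) ∣ ((8 : ℕ) : ℤ) := by exact_mod_cast h
    have h2 : p ∣ 2 ^ 3 := by
      have := Int.natCast_dvd_natCast.1 h1
      norm_num
      exact this
    have h3 := hp.out.dvd_of_dvd_pow h2
    have := Nat.le_of_dvd (by norm_num) h3
    omega
  have := U_int (p := p) hp2
  push_cast at this
  exact this

theorem rel (hpn : p = 4 * n + 1) :
    EQ p 2 ((-8) ^ n * S2 p) (Pool.Agent.R439.PL.FD.SQ p * (1 - p * (4 : ℚ)⁻¹ * H n)) := by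
  have hn := n_pos hpn
  have u2 := U_nat (p := p) (k := 2) (by norm_num) (by omega)
  have u4 := U_nat (p := p) (k := 4) (by norm_num) (by omega)
  push_cast at u2 u4
  have u8 := U_m8 hpn
  have h1 := sum_exp hpn (fun k => (-8 : ℚ) ^ k) (fun k => (u8.pow k).2.1)
  have h2 := sum_exp hpn (fun k => ((-8 : ℚ) ^ k)⁻¹) (fun k => (u8.pow k).2.2)
  have e2 : ∑ k ∈ range p, gb (-1 / 4) k ^ 2 * (fun k => ((-8 : ℚ) ^ k)⁻¹) k = S2 p := by
    rw [S2]; exact sum_congr rfl fun k _ => (div_eq_mul_inv _ _).symm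
  rw [e2] at h2
  have h3 := (EQ.refl (k := 2) ((u8.pow n).2.1)).mul h2
  have e3 : (-8 : ℚ) ^ n * ∑ k ∈ range (n + 1), (n.choose k : ℚ) ^ 2 *
      (1 - p * (2 : ℚ)⁻¹ * (H n - H (n - k))) * (fun k => ((-8 : ℚ) ^ k)⁻¹) k =
      (∑ k ∈ range (n + 1), (n.choose k : ℚ) ^ 2 * (1 - p * (2 : ℚ)⁻¹ * (H n - H (n - k))) *
        (fun k => (-8 : ℚ) ^ k) k) + p * (2 : ℚ)⁻¹ * DS n := by
    rw [← sum_range_reflect (fun k => (n.choose k : ℚ) ^ 2 *
      (1 - p * (2 : ℚ)⁻¹ * (H n - H (n - k))) * (fun k => ((-8 : ℚ) ^ k)⁻¹) k), DS, mul_sum, mul_sum,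
      ← sum_add_distrib]
    refine sum_congr rfl fun k hk => ?_
    have hk' := mem_range.1 hk
    rw [show n + 1 - 1 - k = n - k by omega, show n - (n - k) = k by omega,
      Nat.choose_symm (by omega : k ≤ n)]
    beta_reduce
    have e4 : (-8 : ℚ) ^ n = (-8) ^ k * (-8) ^ (n - k) := by
      rw [← pow_add]; congr 1; omega
    have e5 : (-8 : ℚ) ^ (n - k) ≠ 0 := pow_ne_zero _ (by norm_num)
    rw [e4]
    field_simp
    ring
  rw [e3] at h3
  have e1 : ∑ k ∈ range p, gb (-1 / 4) k ^ 2 * (fun k => (-8 : ℚ) ^ k) k = Pool.Agent.R439.PL.FD.SQ p := rfl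
  rw [e1] at h1
  -- `S₁ = F` modulo `p`
  have h4 : EQ p 1 (Pool.Agent.R439.PL.FD.SQ p) (FS n) := by
    refine (h1.mono (by norm_num)).trans ?_
    rw [FS]
    refine EQ.sum fun k hk => ?_
    have hk' := mem_range.1 hk
    have mH : H n - H (n - k) ∈ Zp p := sub_mem (H_mem (by omega)) (H_mem (by omega))
    have mC : (n.choose k : ℚ) ^ 2 ∈ Zp p := pow_mem (nat_mem _) 2
    have m8 := (u8.pow k).2.1
    refine ⟨mul_mem (mul_mem mC (sub_mem (one_mem _) (mul_mem (mul_mem p_mem u2.2.2) mH))) m8,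
      mul_mem mC m8, ?_⟩
    have := ((((I_p (p := p)).mulR u2.2.2).mulR mH).mulL mC).neg.mulR m8
    convert this using 1
    ring
  have h5 := DS_I hpn
  have mH := H_mem (p := p) (m := n) (by omega)
  have mS := h4.1
  have h6 : I p 1 (2 * DS n + H n * Pool.Agent.R439.PL.FD.SQ p) := by
    have := h5.add (h4.2.2.mulL mH)
    convert this using 1
    ring
  have h7 : I p 2 (p * (4 : ℚ)⁻¹ * (2 * DS n + H n * Pool.Agent.R439.PL.FD.SQ p)) :=
    ((I_p (p := p)).mulR u4.2.2).mul h6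
  refine ⟨h3.1, mul_mem mS (sub_mem (one_mem _) (mul_mem (mul_mem p_mem u4.2.2) mH)), ?_⟩
  have h8 := (h3.2.2.sub h1.2.2).add h7
  convert h8 using 1
  ring

/-! ### the harmonic number `H_{(p-1)/4}` -/

/-- sum of the binomial coefficients `C(m,k)` with `k = r` modulo `4` -/
def S (m : ℕ) (r : ZMod 4) : ℚ := ∑ k ∈ range (m + 1), if (k : ZMod 4) = r then (m.choose k : ℚ) else 0

theorem S_succ (m : ℕ) (r : ZMod 4) : S (m + 1) r = S m r + S m (r - 1) := by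
  have h1 : S m r = ∑ k ∈ range (m + 1 + 1), if (k : ZMod 4) = r then (m.choose k : ℚ) else 0 := by
    rw [sum_range_succ, Nat.choose_succ_self]
    simp [S]
  rw [h1, S, sum_range_succ', sum_range_succ' _ (m + 1), S]
  have h2 : ∀ k : ℕ, (if ((k + 1 : ℕ) : ZMod 4) = r then ((m + 1).choose (k + 1) : ℚ) else 0) =
      (if ((k + 1 : ℕ) : ZMod 4) = r then (m.choose (k + 1) : ℚ) else 0) +
      (if (k : ZMod 4) = r - 1 then (m.choose k : ℚ) else 0) := by
    intro k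
    have h3 : ((k + 1 : ℕ) : ZMod 4) = r ↔ (k : ZMod 4) = r - 1 := by
      push_cast
      rw [eq_sub_iff_add_eq]
    by_cases h : (k : ZMod 4) = r - 1
    · rw [if_pos (h3.mpr h), if_pos (h3.mpr h), if_pos h, Nat.choose_succ_succ]
      push_cast; ring
    · rw [if_neg (fun h' => h (h3.mp h')), if_neg (fun h' => h (h3.mp h')), if_neg h]
      ring
  rw [sum_congr rfl fun k _ => h2 k, sum_add_distrib]
  simp only [Nat.choose_zero_right]
  ring

theorem S_closed (j : ℕ) :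
    S (4 * j + 1) 0 = (16 ^ j + (-4) ^ j) / 2 ∧ S (4 * j + 1) 1 = (16 ^ j + (-4) ^ j) / 2 ∧
    S (4 * j + 1) 2 = (16 ^ j - (-4) ^ j) / 2 ∧ S (4 * j + 1) 3 = (16 ^ j - (-4) ^ j) / 2 := by
  induction j with
  | zero =>
    have e : ∀ r : ZMod 4, S (4 * 0 + 1) r = (if (0 : ZMod 4) = r then 1 else 0) +
        (if (1 : ZMod 4) = r then 1 else 0) := by
      intro r
      simp [S, sum_range_succ]
    refine ⟨?_, ?_, ?_, ?_⟩
    · rw [e, if_pos (by decide), if_neg (by decide)]; norm_num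
    · rw [e, if_neg (by decide), if_pos (by decide)]; norm_num
    · rw [e, if_neg (by decide), if_neg (by decide)]; norm_num
    · rw [e, if_neg (by decide), if_neg (by decide)]; norm_num
  | succ j ih =>
    obtain ⟨h0, h1, h2, h3⟩ := ih
    have m0 : (0 : ZMod 4) - 1 = 3 := by decide
    have m1 : (1 : ZMod 4) - 1 = 0 := by decide
    have m2 : (2 : ZMod 4) - 1 = 1 := by decide
    have m3 : (3 : ZMod 4) - 1 = 2 := by decide
    rw [show 4 * (j + 1) + 1 = 4 * j + 1 + 1 + 1 + 1 + 1 by ring]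
    generalize 4 * j + 1 = n at *
    simp only [S_succ, m0, m1, m2, m3, h0, h1, h2, h3]
    refine ⟨?_, ?_, ?_, ?_⟩ <;> ring

theorem S_blocks (j : ℕ) :
    S (4 * j + 1) 0 = ∑ i ∈ range j, ((4 * j + 1).choose (4 * (i + 1)) : ℚ) + 1 := by
  have hb : ∀ (f : ℕ → ℚ) (j : ℕ), ∑ k ∈ range (4 * j + 2), f k =
      ∑ i ∈ range j, (f (4 * i) + f (4 * i + 1) + f (4 * i + 2) + f (4 * i + 3)) +
        (f (4 * j) + f (4 * j + 1)) := by
    intro f j
    induction j with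
    | zero => simp [sum_range_succ]
    | succ j ih =>
      rw [show 4 * (j + 1) + 2 = 4 * j + 2 + 1 + 1 + 1 + 1 by ring, sum_range_succ, sum_range_succ,
        sum_range_succ, sum_range_succ, ih, sum_range_succ]
      rw [show 4 * (j + 1) = 4 * j + 4 by ring]
      ring
  have hc : ∀ i t : ℕ, ((4 * i + t : ℕ) : ZMod 4) = (t : ZMod 4) := by
    intro i t
    push_cast
    have : (4 : ZMod 4) = 0 := by decide
    rw [this]; ring
  have c0 : ∀ i, ((4 * i : ℕ) : ZMod 4) = ((0 : ℕ) : ZMod 4) := fun i => hc i 0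
  rw [S, show 4 * j + 1 + 1 = 4 * j + 2 by ring, hb]
  simp only [hc, c0]
  have a1 : ¬ (((1 : ℕ) : ZMod 4) = 0) := by decide
  have a2 : ¬ (((2 : ℕ) : ZMod 4) = 0) := by decide
  have a3 : ¬ (((3 : ℕ) : ZMod 4) = 0) := by decide
  simp only [if_neg a1, if_neg a2, if_neg a3, Nat.cast_zero, if_true, add_zero]
  rw [← sum_range_succ (fun i => ((4 * j + 1).choose (4 * i) : ℚ)), sum_range_succ']
  simp

/-- `p H_{(p-1)/4}` modulo `p^2` -/
theorem harm4 (hpn : p = 4 * n + 1) :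
    EQ p 2 (p * H n) (4 - 2 * ((-4) ^ n) ^ 2 - 2 * (-4) ^ n) := by
  have h := Pool.Agent.R488.Cub.HarmP.gen (p := p) 4 n (by norm_num) (by omega) (fun _ => 1) (by
    intro i
    rw [show 4 * i + (4 - 1) = 2 * (2 * i + 1) + 1 by omega, pow_succ, pow_mul]; norm_num)
  have h1 := (S_closed n).1
  rw [S_blocks] at h1
  have e : -((4 : ℕ) : ℚ) * ∑ i ∈ range n, (((fun _ => 1 : ℕ → ℤ) i : ℤ) : ℚ) *
      (p.choose (4 * (i + 1)) : ℚ) = 4 - 2 * ((-4) ^ n) ^ 2 - 2 * (-4) ^ n := by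
    simp only [Int.cast_one, one_mul]
    have e2 : ((-4 : ℚ) ^ n) ^ 2 = 16 ^ n := by
      rw [← pow_mul, mul_comm, pow_mul]; norm_num
    have e3 : ∑ i ∈ range n, (p.choose (4 * (i + 1)) : ℚ) =
        ∑ i ∈ range n, ((4 * n + 1).choose (4 * (i + 1)) : ℚ) := by rw [hpn]
    rw [e2, e3]
    push_cast
    linear_combination (-4) * h1
  rw [e] at h
  exact h

/-- the relation of the two sums -/
theorem rel2 (hpn : p = 4 * n + 1) :
    EQ p 2 ((-8) ^ n * S2 p) (Pool.Agent.R439.PL.FD.SQ p *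
      ((-4) ^ n * ((-4) ^ n + 1) * (2 : ℚ)⁻¹)) := by
  have hn := n_pos hpn
  have u2 := U_nat (p := p) (k := 2) (by norm_num) (by omega)
  have u4 := U_nat (p := p) (k := 4) (by norm_num) (by omega)
  push_cast at u2 u4
  have h1 := rel hpn
  have h2 := harm4 hpn
  have mv : ((-4 : ℚ)) ^ n ∈ Zp p := pow_mem (neg_mem u4.2.1) n
  have mS : Pool.Agent.R439.PL.FD.SQ p ∈ Zp p := by
    have := (Pool.Agent.R439.PL.FD.SQ_QQ hpn).1
    exact this
  refine h1.trans ⟨h1.2.1, mul_mem mS (mul_mem (mul_mem mv (add_mem mv (one_mem _))) u2.2.2), ?_⟩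
  have h3 := (h2.2.2.mulL (mul_mem mS u4.2.2)).neg
  convert h3 using 1
  ring

end Pool.Agent.U951.FD
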