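import Mathlib
import Pool.Agent.U951.FD.Red
import Pool.Agent.U951.FD.Quart

set_option autoImplicit false

/-!
# Assembly for the second question of MP_fdcced_nt
-/

namespace Pool.Agent.U951.FD

open Finset Pool.Agent.R439.PL Pool.Agent.R439.PL.S4

variable {p n : ℕ} [hp : Fact p.Prime]

/-- a sign -/
def sg (t : ℤ) : ℤ := if t % 2 = 0 then 1 else -1

theorem sg_sq (t : ℤ) : (sg t : ℚ) * sg t = 1 := by
  unfold sg; split_ifs <;> norm_num

theorem not_dvd_of_sq {x y : ℤ} (h : (p : ℤ) = x ^ 2 + y ^ 2) (hx : x ≠ 0) : ¬ (p : ℤ) ∣ x := by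
  rintro ⟨c, hc⟩
  have hc0 : c ≠ 0 := by rintro rfl; exact hx (by rw [hc]; ring)
  have h2 : (2 : ℤ) ≤ p := by exact_mod_cast hp.out.two_le
  have h3 : 1 ≤ c ^ 2 := by
    have : 0 < c ^ 2 := by positivity
    omega
  have h4 : x ^ 2 = (p : ℤ) ^ 2 * c ^ 2 := by rw [hc]; ring
  nlinarith [sq_nonneg y, mul_le_mul_of_nonneg_left h3 (sq_nonneg (p : ℤ))]

/-- after cancellation of `(-4)^n` -/
theorem rel3 (hpn : p = 4 * n + 1) {x y : ℤ} (h : (p : ℤ) = x ^ 2 + y ^ 2) (hx : x % 4 = 1) :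
    I p 2 ((-1) ^ n * 2 ^ n * S2 p - (2 * x - p / (2 * x)) * (((-1) ^ n * (2 ^ n) ^ 2 + 1) * (2 : ℚ)⁻¹)) := by
  have hn := n_pos hpn
  have u2 := U_nat (p := p) (k := 2) (by norm_num) (by omega)
  push_cast at u2
  have h1 := rel2 hpn
  have h2 := Pool.Agent.R439.PL.FD.SQ_val hpn h hx
  have e8 : (-8 : ℚ) ^ n = (-1) ^ n * (2 ^ n) ^ 3 := by
    rw [← pow_mul, mul_comm n 3, pow_mul, ← mul_pow]; norm_num
  have e4 : (-4 : ℚ) ^ n = (-1) ^ n * (2 ^ n) ^ 2 := by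
    rw [← pow_mul, mul_comm n 2, pow_mul, ← mul_pow]; norm_num
  rw [e8, e4] at h1
  have hw := u2.pow n
  have hs : (-1 : ℚ) ^ n * (-1) ^ n = 1 := by rw [← mul_pow]; norm_num
  have ms : (-1 : ℚ) ^ n ∈ Zp p := pow_mem (neg_mem (one_mem _)) n
  generalize (2 : ℚ) ^ n = w at *
  generalize (-1 : ℚ) ^ n = s at *
  have mw := hw.2.1
  have h3 := h1.2.2.add (h2.2.2.mulR (mul_mem (mul_mem (mul_mem ms (pow_mem mw 2))
    (add_mem (mul_mem ms (pow_mem mw 2)) (one_mem _))) u2.2.2))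
  apply (hw.pow 2).cancel
  convert h3 using 1
  linear_combination (w ^ 2 * (2 * (x : ℚ) - p / (2 * x)) * (s * w ^ 2 + 1) * (2 : ℚ)⁻¹) * hs

/-- the case `p = 1` modulo `8` -/
theorem case1 (hpn : p = 4 * n + 1) {x y : ℤ} (h : (p : ℤ) = x ^ 2 + y ^ 2) (hx : x % 4 = 1) (t : ℤ)
    (hy : y = 4 * t) (hne : Even n) : EQ p 2 (S2 p) (sg t * (2 * x - p / (2 * x))) := by
  have hn := n_pos hpn
  have u2 := U_nat (p := p) (k := 2) (by norm_num) (by omega)
  push_cast at u2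
  have hx0 : x ≠ 0 := by rintro rfl; omega
  have ux := U_int (p := p) (not_dvd_of_sq h hx0)
  have hw := u2.pow n
  have h1 := rel3 hpn h hx
  rw [hne.neg_one_pow, one_mul, one_mul] at h1
  have h2 := (Quart.quart hpn h hx t).1 hy
  have h3 : I p 1 ((2 : ℚ) ^ n - sg t) := by
    apply R.zero
    have := ((R.nat (p := p) 2).pow n).sub (R.int (p := p) (sg t))
    push_cast at this
    rw [h2] at this
    have e : ((if t % 2 = 0 then 1 else -1 : ZMod p)) - (sg t : ZMod p) = 0 := by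
      unfold sg; split_ifs <;> simp
    rw [e] at this
    exact this
  have hss := sg_sq t
  have msg : (sg t : ℚ) ∈ Zp p := int_mem _
  have mX : (2 * (x : ℚ) - p / (2 * x)) ∈ Zp p := by
    refine sub_mem (mul_mem u2.2.1 ux.2.1) ?_
    rw [div_eq_mul_inv]
    exact mul_mem p_mem (u2.mul ux).2.2
  have mS2 : S2 p ∈ Zp p := by
    have := (rel2 hpn).1
    have u8 := (U_m8 hpn).pow n
    have h9 := mul_mem u8.2.2 this
    rwa [← mul_assoc, inv_mul_cancel₀ u8.1, one_mul] at h9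
  refine ⟨mS2, mul_mem msg mX, ?_⟩
  apply hw.cancel
  have h4 : I p 2 (((2 : ℚ) ^ n - sg t) * ((2 : ℚ) ^ n - sg t) * (2 : ℚ)⁻¹ * (2 * x - p / (2 * x))) :=
    ((h3.mul h3).mulR u2.2.2).mulR mX
  convert h1.add h4 using 1
  linear_combination (-(2 * (x : ℚ) - p / (2 * x)) * (2 : ℚ)⁻¹) * hss

/-- the case `p = 5` modulo `8` -/
theorem case5 (hpn : p = 4 * n + 1) {x y : ℤ} (h : (p : ℤ) = x ^ 2 + y ^ 2) (hx : x % 4 = 1) (t : ℤ)
    (hy : y = 4 * t + 2) (hno : Odd n) : EQ p 2 (S2 p) (sg t * (2 * y - p / (2 * y))) := by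
  have hn := n_pos hpn
  have u2 := U_nat (p := p) (k := 2) (by norm_num) (by omega)
  push_cast at u2
  have hx0 : x ≠ 0 := by rintro rfl; omega
  have hy0 : y ≠ 0 := by omega
  have ux := U_int (p := p) (not_dvd_of_sq h hx0)
  have uy := U_int (p := p) (not_dvd_of_sq (by rw [h]; ring : (p : ℤ) = y ^ 2 + x ^ 2) hy0)
  have hw := u2.pow n
  have h1 := rel3 hpn h hx
  rw [hno.neg_one_pow] at h1
  have h2 := (Quart.quart hpn h hx t).2 hy
  have h3 : I p 1 ((2 : ℚ) ^ n * y + sg t * x) := by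
    apply R.zero
    have := (((R.nat (p := p) 2).pow n).mul (R.int (p := p) y)).add
      ((R.int (p := p) (sg t)).mul (R.int (p := p) x))
    push_cast at this
    rw [h2] at this
    have e : ((if t % 2 = 0 then -(x : ZMod p) else x)) + (sg t : ZMod p) * x = 0 := by
      unfold sg; split_ifs <;> simp
    rw [e] at this
    exact this
  have hss := sg_sq t
  have msg : (sg t : ℚ) ∈ Zp p := int_mem _
  have mY : (2 * (y : ℚ) - p / (2 * y)) ∈ Zp p := by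
    refine sub_mem (mul_mem u2.2.1 uy.2.1) ?_
    rw [div_eq_mul_inv]
    exact mul_mem p_mem (u2.mul uy).2.2
  have mS2 : S2 p ∈ Zp p := by
    have := (rel2 hpn).1
    have u8 := (U_m8 hpn).pow n
    have h9 := mul_mem u8.2.2 this
    rwa [← mul_assoc, inv_mul_cancel₀ u8.1, one_mul] at h9
  refine ⟨mS2, mul_mem msg mY, ?_⟩
  have hq : (p : ℚ) = x ^ 2 + y ^ 2 := by exact_mod_cast h
  have x0 : (x : ℚ) ≠ 0 := ux.1
  have y0 : (y : ℚ) ≠ 0 := uy.1
  apply hw.cancel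
  -- the main computation
  have h5 : I p 2 ((2 * (x : ℚ) - p / (2 * x)) * ((-1 * ((2 : ℚ) ^ n) ^ 2 + 1) * (2 : ℚ)⁻¹) +
      2 ^ n * sg t * (2 * y - p / (2 * y))) := by
    have u4 : U p (2 * 2 * (x : ℚ) * (y * y)) := ((u2.mul u2).mul ux).mul (uy.mul uy)
    apply u4.cancel
    have h6 : I p 2 (-((p : ℚ) * p)) := ((I_p (p := p)).mul (I_p (p := p))).neg
    have h7 : I p 2 (4 * sg t * x * (p * ((2 : ℚ) ^ n * y + sg t * x))) := by
      have m4 : (4 : ℚ) ∈ Zp p := by exact_mod_cast nat_mem (p := p) 4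
      exact ((I_p (p := p)).mul h3).mulL (mul_mem (mul_mem m4 msg) ux.2.1)
    have h8 : I p 2 ((p - 4 * (x : ℚ) ^ 2) * (((2 : ℚ) ^ n * y + sg t * x) * ((2 : ℚ) ^ n * y + sg t * x))) := by
      have m4 : (4 : ℚ) ∈ Zp p := by exact_mod_cast nat_mem (p := p) 4
      exact (h3.mul h3).mulL (sub_mem p_mem (mul_mem m4 (pow_mem ux.2.1 2)))
    convert (h6.add h7).add h8 using 1
    generalize (2 : ℚ) ^ n = w
    generalize (sg t : ℚ) = d at *
    have e1 : (2 * 2 * (x : ℚ) * (y * y)) * ((2 * (x : ℚ) - p / (2 * x)) * ((-1 * w ^ 2 + 1) * (2 : ℚ)⁻¹) +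
        w * d * (2 * y - p / (2 * y))) =
        (4 * (x : ℚ) ^ 2 - p) * (1 - w ^ 2) * y ^ 2 + 2 * x * y * d * w * (4 * y ^ 2 - p) := by
      field_simp
      ring
    rw [e1, hq]
    linear_combination (-((x : ℚ) ^ 2) * (x ^ 2 + 5 * y ^ 2)) * hss
  convert (h1.add h5).neg using 1
  ring

end Pool.Agent.U951.FD
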